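import Mathlib

set_option autoImplicit false
open Finset

namespace Pool.Agent.Results.MP_f8e877_nt.PartC

/-- generalized central trinomial coefficient -/
def T (n : ℕ) (b c : ℤ) : ℤ :=
  ∑ j ∈ range (n / 2 + 1), (n.choose (2 * j) : ℤ) * ((2 * j).choose j : ℤ) * b ^ (n - 2 * j) * c ^ j

theorem result : ∃ p : ℕ, p.Prime ∧ 7 < p ∧
    ¬ ((p : ℤ) ^ 2 ∣
      ((∑ k ∈ range p, (35 * (k : ℚ) + 9) * (((2 * k).choose k : ℚ) ^ 2) *
          ((T (3 * k) 6 1 : ℚ) / (-512) ^ k))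
        - (9 / 32 : ℚ) * p * (jacobiSym 2 p : ℚ) * (25 + 7 * (jacobiSym p 7 : ℚ))).num) := by
  refine ⟨11, by norm_num, by norm_num, ?_⟩
  have h1 : jacobiSym 2 11 = -1 := by norm_num
  have h2 : jacobiSym ((11 : ℕ) : ℤ) 7 = 1 := by norm_num
  rw [h1, h2]
  decide +kernel

end Pool.Agent.Results.MP_f8e877_nt.PartC
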